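import Pool.Agent.helper87.X4.Spec

set_option autoImplicit false

namespace Pool.Agent.X4

open Matrix Pool.Agent.PL

theorem L2_add {F : Type} [NormedField F] [IsUltrametricDist F] {x y : F} {c : ℝ}
    (hx : ‖x‖ ≤ c) (hy : ‖y‖ ≤ c) : ‖x + y‖ ≤ c :=
  (IsUltrametricDist.norm_add_le_max x y).trans (max_le hx hy)

theorem L2_prod {F : Type} [NormedField F] [IsUltrametricDist F] {ι : Type} [DecidableEq ι]
    (a b : ι → F) (c : ℝ) (hc0 : 0 ≤ c) (hc1 : c ≤ 1) (ha : ∀ i, ‖a i‖ ≤ 1)
    (hb : ∀ i, ‖b i‖ ≤ c) (s : Finset ι) :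
    ‖∏ i ∈ s, (a i + b i)‖ ≤ 1 ∧ ‖∏ i ∈ s, (a i + b i) - ∏ i ∈ s, a i‖ ≤ c ∧
      ‖∏ i ∈ s, (a i + b i) - ∏ i ∈ s, a i - ∑ k ∈ s, b k * ∏ i ∈ s.erase k, a i‖ ≤ c ^ 2 := by
  induction s using Finset.induction_on with
  | empty =>
    refine ⟨?_, ?_, ?_⟩
    · rw [Finset.prod_empty, norm_one]
    · rw [Finset.prod_empty, Finset.prod_empty, sub_self, norm_zero]; exact hc0
    · rw [Finset.prod_empty, Finset.prod_empty, Finset.sum_empty, sub_self, sub_zero, norm_zero]
      exact sq_nonneg c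
  | insert x s hx ih =>
    obtain ⟨h1, h2, h3⟩ := ih
    have hsum : ∑ k ∈ insert x s, b k * ∏ i ∈ (insert x s).erase k, a i
        = b x * ∏ i ∈ s, a i + a x * ∑ k ∈ s, b k * ∏ i ∈ s.erase k, a i := by
      rw [Finset.sum_insert hx, Finset.erase_insert hx, Finset.mul_sum]
      congr 1
      refine Finset.sum_congr rfl fun k hk => ?_
      have hne : x ≠ k := fun h => hx (h ▸ hk)
      rw [Finset.erase_insert_of_ne hne, Finset.prod_insert (fun h => hx (Finset.mem_of_mem_erase h))]
      ring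
    rw [hsum, Finset.prod_insert hx, Finset.prod_insert hx]
    refine ⟨?_, ?_, ?_⟩
    · rw [norm_mul]
      exact mul_le_one₀ (L2_add (ha x) ((hb x).trans hc1)) (norm_nonneg _) h1
    · have e : (a x + b x) * ∏ i ∈ s, (a i + b i) - a x * ∏ i ∈ s, a i
          = a x * (∏ i ∈ s, (a i + b i) - ∏ i ∈ s, a i) + b x * ∏ i ∈ s, (a i + b i) := by ring
      rw [e]
      refine L2_add ?_ ?_
      · rw [norm_mul]
        calc ‖a x‖ * _ ≤ 1 * c := mul_le_mul (ha x) h2 (norm_nonneg _) zero_le_one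
          _ = c := one_mul c
      · rw [norm_mul]
        calc ‖b x‖ * _ ≤ c * 1 := mul_le_mul (hb x) h1 (norm_nonneg _) hc0
          _ = c := mul_one c
    · have e : (a x + b x) * ∏ i ∈ s, (a i + b i) - a x * ∏ i ∈ s, a i
            - (b x * ∏ i ∈ s, a i + a x * ∑ k ∈ s, b k * ∏ i ∈ s.erase k, a i)
          = a x * (∏ i ∈ s, (a i + b i) - ∏ i ∈ s, a i - ∑ k ∈ s, b k * ∏ i ∈ s.erase k, a i)
            + b x * (∏ i ∈ s, (a i + b i) - ∏ i ∈ s, a i) := by ring
      rw [e]
      refine L2_add ?_ ?_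
      · rw [norm_mul]
        calc ‖a x‖ * _ ≤ 1 * c ^ 2 := mul_le_mul (ha x) h3 (norm_nonneg _) zero_le_one
          _ = c ^ 2 := one_mul _
      · rw [norm_mul]
        calc ‖b x‖ * _ ≤ c * c := mul_le_mul (hb x) h2 (norm_nonneg _) hc0
          _ = c ^ 2 := (sq c).symm

theorem L2_one {F : Type} [Field F] {N m : ℕ} (I J : Fin m → Fin N) :
    (1 : Matrix (Fin m → Fin N) (Fin m → Fin N) F) I J
      = ∏ i : Fin m, (1 : Matrix (Fin N) (Fin N) F) (I i) (J i) := by
  by_cases h : I = J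
  · subst h
    rw [Matrix.one_apply_eq]
    exact (Finset.prod_eq_one fun i _ => Matrix.one_apply_eq _).symm
  · rw [Matrix.one_apply_ne h]
    obtain ⟨i, hi⟩ := Function.ne_iff.1 h
    have hz : (1 : Matrix (Fin N) (Fin N) F) (I i) (J i) = 0 := Matrix.one_apply_ne hi
    exact (Finset.prod_eq_zero (f := fun i => (1 : Matrix (Fin N) (Fin N) F) (I i) (J i))
      (Finset.mem_univ i) hz).symm

theorem L2_norm_one {F : Type} [NormedField F] {N : ℕ} (i j : Fin N) :
    ‖(1 : Matrix (Fin N) (Fin N) F) i j‖ ≤ 1 := by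
  by_cases h : i = j
  · subst h; rw [Matrix.one_apply_eq, norm_one]
  · rw [Matrix.one_apply_ne h, norm_zero]; exact zero_le_one

theorem L2_der {F : Type} [Field F] {N m : ℕ} (B : Matrix (Fin N) (Fin N) F) (t : Tn N m F)
    (I : Fin m → Fin N) :
    der B m t I = ∑ J : Fin m → Fin N, (∑ k : Fin m, B (I k) (J k) *
      ∏ i ∈ Finset.univ.erase k, (1 : Matrix (Fin N) (Fin N) F) (I i) (J i)) * t J := by
  have h1 : ∀ k : Fin m, ∑ j : Fin N, B (I k) j * t (Function.update I k j)
      = ∑ J : Fin m → Fin N, (B (I k) (J k) *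
        ∏ i ∈ Finset.univ.erase k, (1 : Matrix (Fin N) (Fin N) F) (I i) (J i)) * t J := by
    intro k
    refine Fintype.sum_of_injective (fun j => Function.update I k j)
      (Function.update_injective I k) _ _ ?_ ?_
    · intro J hJ
      have h2 : ∃ i, i ≠ k ∧ I i ≠ J i := by
        by_contra hcon
        push Not at hcon
        refine hJ ⟨J k, ?_⟩
        funext i
        by_cases hi : i = k
        · subst hi; exact Function.update_self _ _ _
        · show Function.update I k (J k) i = J i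
          rw [Function.update_of_ne hi]; exact hcon i hi
      obtain ⟨i, hi, hne⟩ := h2
      have hz : (1 : Matrix (Fin N) (Fin N) F) (I i) (J i) = 0 := Matrix.one_apply_ne hne
      have hp : ∏ i ∈ Finset.univ.erase k, (1 : Matrix (Fin N) (Fin N) F) (I i) (J i) = 0 :=
        Finset.prod_eq_zero (f := fun i => (1 : Matrix (Fin N) (Fin N) F) (I i) (J i))
          (Finset.mem_erase.2 ⟨hi, Finset.mem_univ i⟩) hz
      show (B (I k) (J k) * ∏ i ∈ Finset.univ.erase k,
        (1 : Matrix (Fin N) (Fin N) F) (I i) (J i)) * t J = 0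
      rw [hp, mul_zero, zero_mul]
    · intro j
      show B (I k) j * t (Function.update I k j) = (B (I k) (Function.update I k j k) *
        ∏ i ∈ Finset.univ.erase k, (1 : Matrix (Fin N) (Fin N) F) (I i)
          (Function.update I k j i)) * t (Function.update I k j)
      rw [Function.update_self, Finset.prod_eq_one, mul_one]
      intro i hi
      rw [Function.update_of_ne (Finset.ne_of_mem_erase hi), Matrix.one_apply_eq]
  unfold der
  rw [Finset.sum_congr rfl fun k _ => h1 k, Finset.sum_comm]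
  refine Finset.sum_congr rfl fun J _ => ?_
  rw [Finset.sum_mul]

theorem L2 : L2_stmt := by
  intro F _ _ N m B c hc0 hc1 hB
  refine ⟨fun I J => ?_, fun t => ?_⟩
  · rw [L2_one]
    exact (L2_prod (fun i => (1 : Matrix (Fin N) (Fin N) F) (I i) (J i))
      (fun i => B (I i) (J i)) c hc0 hc1 (fun i => L2_norm_one _ _) (fun i => hB _ _)
      Finset.univ).2.1
  · refine (pi_norm_le_iff_of_nonneg (mul_nonneg (sq_nonneg c) (norm_nonneg t))).2 fun I => ?_
    have e : (tp (1 + B) m *ᵥ t - t - der B m t) I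
        = ∑ J : Fin m → Fin N, (∏ i : Fin m, ((1 : Matrix (Fin N) (Fin N) F) (I i) (J i)
            + B (I i) (J i)) - ∏ i : Fin m, (1 : Matrix (Fin N) (Fin N) F) (I i) (J i)
            - ∑ k : Fin m, B (I k) (J k) *
              ∏ i ∈ Finset.univ.erase k, (1 : Matrix (Fin N) (Fin N) F) (I i) (J i)) * t J := by
      have e1 : t I = ∑ J : Fin m → Fin N,
          (∏ i : Fin m, (1 : Matrix (Fin N) (Fin N) F) (I i) (J i)) * t J := by
        have e2 : ((1 : Matrix (Fin m → Fin N) (Fin m → Fin N) F) *ᵥ t) I = t I := by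
          rw [Matrix.one_mulVec]
        rw [← e2]
        show ∑ J, (1 : Matrix (Fin m → Fin N) (Fin m → Fin N) F) I J * t J = _
        exact Finset.sum_congr rfl fun J _ => by rw [L2_one]
      show (∑ J, tp (1 + B) m I J * t J) - t I - der B m t I = _
      rw [e1, L2_der, ← Finset.sum_sub_distrib, ← Finset.sum_sub_distrib]
      refine Finset.sum_congr rfl fun J _ => ?_
      rw [← sub_mul, ← sub_mul]
      rfl
    rw [e]
    refine IsUltrametricDist.norm_sum_le_of_forall_le_of_nonneg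
      (mul_nonneg (sq_nonneg c) (norm_nonneg t)) fun J _ => ?_
    rw [norm_mul]
    exact mul_le_mul (L2_prod (fun i => (1 : Matrix (Fin N) (Fin N) F) (I i) (J i))
      (fun i => B (I i) (J i)) c hc0 hc1 (fun i => L2_norm_one _ _) (fun i => hB _ _)
      Finset.univ).2.2 (norm_le_pi_norm t J) (norm_nonneg _) (sq_nonneg c)

end Pool.Agent.X4
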